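import Pool.Agent.H87.EBK.Stmts2

/-!
Board `ebs`, row VAD (helper23).
-/

set_option autoImplicit false

namespace Pool.EBK

theorem vad_add (x y : ℚ) (hx : x ≠ 0) (hy : y ≠ 0) (h : v x < v y) :
    x + y ≠ 0 ∧ v (x + y) = v x := by
  have h0 : x + y ≠ 0 := by
    intro h0
    have h1 : y = -x := by linarith
    rw [h1] at h
    unfold v at h
    rw [padicValRat.neg] at h
    exact lt_irrefl _ h
  exact ⟨h0, padicValRat.add_eq_of_lt h0 hx hy h⟩

theorem vad_mul (x y : ℚ) (hx : x ≠ 0) (hy : y ≠ 0) : v (x * y) = v x + v y :=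
  padicValRat.mul hx hy

theorem vad (hTVL : TVL) : VAD := by
  intro a b c u w c' u' w' ha hb h1 h2 hca hcb hcc hN
  obtain ⟨hu, -, hw, -⟩ := hTVL a b c u w ha hb h1
  obtain ⟨hu', -, hw', -⟩ := hTVL a b c' u' w' ha hb h2
  obtain ⟨c0, u0, w0, -, -⟩ := h1
  obtain ⟨c0', u0', w0', -, -⟩ := h2
  have eu := hu hca
  have ew := hw hcb
  have eu' := hu' (hcc.trans hca)
  have ew' := hw' (hcc.trans hcb)
  have n1 : v (c * c' * u * u') = 2 * v c + 2 * v c' := by
    rw [vad_mul _ _ (by positivity) u0'.ne', vad_mul _ _ (by positivity) u0.ne',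
      vad_mul _ _ c0.ne' c0'.ne', eu, eu']
    ring
  have n2 : v (-(a ^ 2 * w * w')) = 2 * v a + v c + v c' := by
    have e : v (-(a ^ 2 * w * w')) = v (a * a * w * w') := by
      unfold v
      rw [padicValRat.neg, sq]
    rw [e, vad_mul _ _ (by positivity) w0'.ne', vad_mul _ _ (by positivity) w0.ne',
      vad_mul _ _ ha.ne' ha.ne', ew, ew']
    ring
  have m1 : v (c' * w' * u) = 2 * v c' + v c := by
    rw [vad_mul _ _ (by positivity) u0.ne', vad_mul _ _ c0'.ne' w0'.ne', eu, ew']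
    ring
  have m2 : v (c * w * u') = 2 * v c + v c' := by
    rw [vad_mul _ _ (by positivity) u0'.ne', vad_mul _ _ c0.ne' w0.ne', eu', ew]
    ring
  have eN : v (NU a c u w c' u' w') = 2 * v c + 2 * v c' := by
    have h := vad_add (c * c' * u * u') (-(a ^ 2 * w * w')) (by positivity)
      (neg_ne_zero.mpr (by positivity)) (by rw [n1, n2]; linarith)
    unfold NU
    rw [sub_eq_add_neg, h.2, n1]
  have hM := vad_add (c' * w' * u) (c * w * u') (by positivity) (by positivity)
    (by rw [m1, m2]; linarith)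
  have eM : v (MU c u w c' u' w') = 2 * v c' + v c := by
    unfold MU
    rw [hM.2, m1]
  have hM0 : MU c u w c' u' w' ≠ 0 := hM.1
  have e : v (NU a c u w c' u' w' / MU c u w c' u' w') =
      v (NU a c u w c' u' w') - v (MU c u w c' u' w') := padicValRat.div hN.ne' hM0
  rw [e, eN, eM]
  ring

end Pool.EBK
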